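import Pool.Agent.N549.HG.Stm4
import Pool.Agent.N457.HG.Torus
import Pool.Agent.N342.HG.Loc

/-!
# HG/FREE: the cube with free boundary and the torus
-/

set_option autoImplicit false

namespace Pool.Agent.N97.HG

open MeasureTheory Set Pool.Agent.N549.HG
open Pool.Agent.N457.HG.Torus (P)
open Pool.Agent.N342.HG (norm_coe_le sqd_comm)
open scoped ENNReal NNReal Pointwise

/-- the configurations in the cube -/
def S (d : ℕ) (b L : ℝ) (N : ℕ) : Set (Fin N → Fin d → ℝ) :=
  {x | (∀ i k, x i k ∈ Set.Icc (0 : ℝ) L) ∧ ∀ i j, i ≠ j → b ^ 2 ≤ ∑ k, (x i k - x j k) ^ 2}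

/-- the configurations on the torus -/
def T (d : ℕ) (r : ℝ) (N : ℕ) : Set (Fin N → Torus d) :=
  {x | ∀ i j, i < j → r ^ 2 ≤ sqd (x i) (x j)}

/-- the fundamental domain -/
def Q0 (d : ℕ) : Set (Fin d → ℝ) := Set.univ.pi fun _ => Ioc (0 : ℝ) 1

/-- the fundamental domain of the configurations -/
def QN (d N : ℕ) : Set (Fin N → Fin d → ℝ) := Set.univ.pi fun _ => Q0 d

/-- the projection -/
def PN (d N : ℕ) (x : Fin N → Fin d → ℝ) : Fin N → Torus d := fun i => P d (x i)

lemma mp0 : MeasurePreserving (fun x : ℝ => (x : UnitAddCircle))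
    ((volume : Measure ℝ).restrict (Ioc (0 : ℝ) 1))
    (AddCircle.haarAddCircle : Measure UnitAddCircle) := by
  have h := UnitAddCircle.measurePreserving_mk 0
  rw [zero_add] at h
  have h2 : (volume : Measure UnitAddCircle) = AddCircle.haarAddCircle := by
    have := AddCircle.volume_eq_smul_haarAddCircle (T := 1)
    rw [ENNReal.ofReal_one, one_smul] at this
    exact this
  rw [← h2]
  exact h

lemma mp1 (d : ℕ) : MeasurePreserving (P d) ((volume : Measure (Fin d → ℝ)).restrict (Q0 d))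
    (vol d) := by
  have h := measurePreserving_pi (fun _ : Fin d =>
    (volume : Measure ℝ).restrict (Ioc (0 : ℝ) 1))
    (fun _ : Fin d => (AddCircle.haarAddCircle : Measure UnitAddCircle)) (fun _ => mp0)
  rw [← Measure.restrict_pi_pi] at h
  exact h

instance vol_prob (d : ℕ) : IsProbabilityMeasure (vol d) := by
  unfold vol
  infer_instance

lemma mpN (d N : ℕ) : MeasurePreserving (PN d N)
    ((volume : Measure (Fin N → Fin d → ℝ)).restrict (QN d N))
    (Measure.pi fun _ : Fin N => vol d) := by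
  have h := measurePreserving_pi (fun _ : Fin N =>
    (volume : Measure (Fin d → ℝ)).restrict (Q0 d))
    (fun _ : Fin N => vol d) (fun _ => mp1 d)
  rw [← Measure.restrict_pi_pi] at h
  exact h

lemma measurableSet_T (d : ℕ) (r : ℝ) (N : ℕ) : MeasurableSet (T d r N) := by
  have h : T d r N = ⋂ i : Fin N, ⋂ j : Fin N, {x | i < j → r ^ 2 ≤ sqd (x i) (x j)} := by
    ext x
    simp [T]
  rw [h]
  refine MeasurableSet.iInter fun i => MeasurableSet.iInter fun j => ?_
  by_cases hij : i < j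
  · have h2 : {x : Fin N → Torus d | i < j → r ^ 2 ≤ sqd (x i) (x j)} =
        {x | r ^ 2 ≤ sqd (x i) (x j)} := by
      ext x
      simp [hij]
    rw [h2]
    refine measurableSet_le measurable_const ?_
    unfold sqd
    fun_prop
  · have h2 : {x : Fin N → Torus d | i < j → r ^ 2 ≤ sqd (x i) (x j)} = univ := by
      ext x
      simp [hij]
    rw [h2]
    exact MeasurableSet.univ

lemma conf_eq (d : ℕ) (r : ℝ) (N : ℕ) :
    conf d r N = (volume (PN d N ⁻¹' T d r N ∩ QN d N)).toReal := by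
  have h1 : conf d r N = ((Measure.pi fun _ : Fin N => vol d) (T d r N)).toReal := rfl
  rw [h1, ← (mpN d N).measure_preimage (measurableSet_T d r N).nullMeasurableSet,
    Measure.restrict_apply ((mpN d N).measurable (measurableSet_T d r N))]

lemma S_subset (d : ℕ) (b L : ℝ) (N : ℕ) :
    S d b L N ⊆ Set.univ.pi fun _ => Set.univ.pi fun _ => Icc (0 : ℝ) L := by
  intro x hx i _ k _
  exact hx.1 i k

lemma S_lt_top (d : ℕ) (b L : ℝ) (N : ℕ) : volume (S d b L N) < ⊤ := by
  refine (measure_mono (S_subset d b L N)).trans_lt ?_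
  have : IsCompact (Set.univ.pi fun _ : Fin N => Set.univ.pi fun _ : Fin d => Icc (0 : ℝ) L) :=
    isCompact_univ_pi fun _ => isCompact_univ_pi fun _ => isCompact_Icc
  exact this.measure_lt_top

/-- scaling -/
lemma S_scale (d : ℕ) (b L : ℝ) (N : ℕ) {c : ℝ} (hc : 0 < c) :
    (volume (S d b L N)).toReal = c ^ (d * N) * (volume (S d (b / c) (L / c) N)).toReal := by
  have h1 : S d b L N = c • S d (b / c) (L / c) N := by
    ext x
    rw [Set.mem_smul_set_iff_inv_smul_mem₀ hc.ne']
    unfold S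
    simp only [Set.mem_ofPred_eq, Pi.smul_apply, smul_eq_mul, Set.mem_Icc]
    have e1 : ∀ t : ℝ, (0 ≤ c⁻¹ * t ∧ c⁻¹ * t ≤ L / c) ↔ (0 ≤ t ∧ t ≤ L) := by
      intro t
      rw [inv_mul_eq_div, div_le_div_iff_of_pos_right hc, div_nonneg_iff]
      constructor
      · rintro ⟨h | h, h2⟩
        · exact ⟨h.1, h2⟩
        · linarith [h.2]
      · rintro ⟨h, h2⟩
        exact ⟨Or.inl ⟨h, hc.le⟩, h2⟩
    have e2 : ∀ i j, ∑ k, (c⁻¹ * x i k - c⁻¹ * x j k) ^ 2 =
        (∑ k, (x i k - x j k) ^ 2) / c ^ 2 := by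
      intro i j
      rw [Finset.sum_div]
      refine Finset.sum_congr rfl fun k _ => ?_
      field_simp
    simp only [e1, e2, div_pow]
    have e3 : ∀ t : ℝ, (b ^ 2 / c ^ 2 ≤ t / c ^ 2) ↔ b ^ 2 ≤ t := fun t =>
      div_le_div_iff_of_pos_right (by positivity)
    simp only [e3]
  rw [h1, Measure.addHaar_smul, ENNReal.toReal_mul, ENNReal.toReal_ofReal (abs_nonneg _)]
  congr 1
  have h2 : Module.finrank ℝ (Fin N → Fin d → ℝ) = d * N := by
    rw [Module.finrank_pi_fintype]
    simp [mul_comm]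
  rw [h2, abs_of_pos (by positivity)]

lemma lower (d : ℕ) {r : ℝ} (N : ℕ) : conf d r N ≤ (volume (S d r 1 N)).toReal := by
  rw [conf_eq]
  refine ENNReal.toReal_mono (S_lt_top d r 1 N).ne (measure_mono ?_)
  rintro x ⟨hx, hxQ⟩
  have hx' : ∀ i j, i < j → r ^ 2 ≤ sqd (P d (x i)) (P d (x j)) := hx
  have hle : ∀ i j, sqd (P d (x i)) (P d (x j)) ≤ ∑ k, (x i k - x j k) ^ 2 := by
    intro i j
    unfold sqd
    refine Finset.sum_le_sum fun k _ => ?_
    have h1 : ‖P d (x i) k - P d (x j) k‖ ≤ |x i k - x j k| := by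
      have h2 : P d (x i) k - P d (x j) k = ((x i k - x j k : ℝ) : UnitAddCircle) := by
        rw [AddCircle.coe_sub]
        rfl
      rw [h2]
      exact norm_coe_le _
    calc ‖P d (x i) k - P d (x j) k‖ ^ 2 ≤ |x i k - x j k| ^ 2 :=
          pow_le_pow_left₀ (norm_nonneg _) h1 2
      _ = (x i k - x j k) ^ 2 := sq_abs _
  refine ⟨fun i k => ?_, fun i j hij => ?_⟩
  · have h1 := hxQ i (mem_univ i) k (mem_univ k)
    exact ⟨h1.1.le, h1.2⟩
  · rcases lt_or_gt_of_ne hij with h | h
    · exact (hx' i j h).trans (hle i j)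
    · have h1 := (hx' j i h).trans (hle j i)
      have h2 : ∑ k, (x j k - x i k) ^ 2 = ∑ k, (x i k - x j k) ^ 2 :=
        Finset.sum_congr rfl fun k _ => by ring
      rwa [h2] at h1

lemma ae_ne (d N : ℕ) : ∀ᵐ x : Fin N → Fin d → ℝ, ∀ i k, x i k ≠ 0 := by
  rw [ae_all_iff]
  intro i
  rw [ae_all_iff]
  intro k
  have h1 : ∀ᵐ y : Fin d → ℝ, y k ≠ 0 := by
    have := Measure.ae_eval_ne (μ := fun _ : Fin d => (volume : Measure ℝ)) k (0 : ℝ)
    exact this
  have h2 : Measure.QuasiMeasurePreserving (Function.eval i)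
      (volume : Measure (Fin N → Fin d → ℝ)) (volume : Measure (Fin d → ℝ)) :=
    Measure.quasiMeasurePreserving_eval (μ := fun _ : Fin N => (volume : Measure (Fin d → ℝ))) i
  exact h2.ae h1

lemma upper (d : ℕ) {r : ℝ} (hr : 0 < r) (hr1 : r < 1) (N : ℕ) :
    (volume (S d r (1 - r) N)).toReal ≤ conf d r N := by
  have hfin : volume (PN d N ⁻¹' T d r N ∩ QN d N) < ⊤ := by
    refine (measure_mono (t := Set.univ.pi fun _ : Fin N => Set.univ.pi fun _ : Fin d =>
      Icc (0 : ℝ) 1) ?_).trans_lt ?_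
    · rintro x ⟨-, hx⟩ i _ k _
      have h1 := hx i (mem_univ i) k (mem_univ k)
      exact ⟨h1.1.le, h1.2⟩
    · have : IsCompact (Set.univ.pi fun _ : Fin N => Set.univ.pi fun _ : Fin d =>
          Icc (0 : ℝ) 1) :=
        isCompact_univ_pi fun _ => isCompact_univ_pi fun _ => isCompact_Icc
      exact this.measure_lt_top
  rw [conf_eq]
  refine ENNReal.toReal_mono hfin.ne (measure_mono_ae ?_)
  filter_upwards [ae_ne d N] with x hx0 hx
  have hx1 : ∀ i k, x i k ∈ Set.Icc (0 : ℝ) (1 - r) := hx.1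
  have hx2 : ∀ i j, i ≠ j → r ^ 2 ≤ ∑ k, (x i k - x j k) ^ 2 := hx.2
  refine ⟨?_, ?_⟩
  · intro i j hij
    show r ^ 2 ≤ sqd (P d (x i)) (P d (x j))
    have hn : ∀ k, ‖P d (x i) k - P d (x j) k‖ = |(x i k - x j k) - round (x i k - x j k)| := by
      intro k
      have h2 : P d (x i) k - P d (x j) k = ((x i k - x j k : ℝ) : UnitAddCircle) := by
        rw [AddCircle.coe_sub]
        rfl
      rw [h2, UnitAddCircle.norm_eq]
    by_cases hall : ∀ k, round (x i k - x j k) = 0
    · refine (hx2 i j hij.ne).trans (le_of_eq ?_)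
      unfold sqd
      refine Finset.sum_congr rfl fun k _ => ?_
      rw [hn, hall k, Int.cast_zero, sub_zero, sq_abs]
    · push Not at hall
      obtain ⟨k, hk⟩ := hall
      have h3 : r ≤ ‖P d (x i) k - P d (x j) k‖ := by
        rw [hn]
        set m := round (x i k - x j k) with hm
        have h4 : (1 : ℝ) ≤ |(m : ℝ)| := by
          have : (1 : ℤ) ≤ |m| := Int.one_le_abs hk
          exact_mod_cast this
        have h5 : |x i k - x j k| ≤ 1 - r := by
          have a1 := hx1 i k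
          have a2 := hx1 j k
          rw [abs_le]
          constructor <;> linarith [a1.1, a1.2, a2.1, a2.2]
        have h6 : |(m : ℝ)| - |x i k - x j k| ≤ |(x i k - x j k) - m| := by
          rw [abs_sub_comm (x i k - x j k) (m : ℝ)]
          exact abs_sub_abs_le_abs_sub _ _
        linarith
      calc r ^ 2 ≤ ‖P d (x i) k - P d (x j) k‖ ^ 2 := pow_le_pow_left₀ hr.le h3 2
        _ ≤ sqd (P d (x i)) (P d (x j)) := by
            unfold sqd
            exact Finset.single_le_sum (f := fun k => ‖P d (x i) k - P d (x j) k‖ ^ 2)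
              (fun k _ => sq_nonneg _) (Finset.mem_univ k)
  · intro i _ k _
    have h1 := hx1 i k
    refine ⟨lt_of_le_of_ne h1.1 (Ne.symm (hx0 i k)), ?_⟩
    linarith [h1.2]

theorem free : S_FREE := by
  intro d N b L _ hb hL
  have hLb : 0 < L + b := by linarith
  have hbox : ∀ b L : ℝ, boxVol d b L N = (volume (S d b L N)).toReal := fun _ _ => rfl
  constructor
  · rw [hbox, S_scale d b L N hL, div_self hL.ne']
    exact mul_le_mul_of_nonneg_left (lower d N) (by positivity)
  · rw [hbox, S_scale d b L N hLb]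
    have h1 : L / (L + b) = 1 - b / (L + b) := by
      field_simp
      ring
    rw [h1]
    refine mul_le_mul_of_nonneg_left (upper d (by positivity) ?_ N) (by positivity)
    rw [div_lt_one hLb]
    linarith

end Pool.Agent.N97.HG
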